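import Pool.Agent.Work.MP_40b2ba_co.QR.Final

set_option autoImplicit false

/-!
# Tournaments near the doubling bound are quasirandom

`IsTour R`: `R` is a tournament. `HasTT R n`: it has a transitive subtournament with `n` vertices.
`arcs R X Y`: number of arcs from `X` to `Y`; `dens R X Y`: this number divided by `|X| |Y|`.
`outN R v Y`, `inN R v Y`: the out- and in-neighbours of `v` in `Y`.
-/

namespace Pool.Agent.Results.MP_40b2ba_co.BiasGain

open Pool.Agent.Work.MP_40b2ba_co Pool.Agent.Work.MP_40b2ba_co.QR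

theorem result :
    (∀ (V : Type) (R : V → V → Prop), IsTour R → ∀ X Y : Finset V, X.Nonempty → Y.Nonempty →
      ∃ k : ℕ, HasTT R k ∧
        Real.logb 2 Y.card + (dens R X Y - 1 / 2) * Real.logb 2 X.card - 30 ≤ k) ∧
    ∀ (V : Type) [Fintype V] (R : V → V → Prop) (n : ℕ), IsTour R → ¬ HasTT R n →
      (∀ e : ℝ, 0 < e → e ≤ 1 / 10 → 1 ≤ n → (2 : ℝ) ^ ((1 - e) * n) ≤ Fintype.card V →
        ∀ X Y : Finset V, Disjoint X Y →
          (2 : ℝ) ^ (-(e * n)) * Fintype.card V ≤ X.card →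
          (2 : ℝ) ^ (-(e * n)) * Fintype.card V ≤ Y.card →
            |dens R X Y - 1 / 2| < 3 * e + 38 / n) ∧
      (∀ d : ℝ, 0 < d → ∀ X Y : Finset V, Y.Nonempty →
        (∀ v ∈ X, (1 / 2 + d) * Y.card ≤ (outN R v Y).card ∨
          (1 / 2 + d) * Y.card ≤ (inN R v Y).card) →
        (X.card : ℝ) ≤ 2 * (2 ^ ((n : ℝ) + 30) / Y.card) ^ (1 / d)) ∧
      (380 ≤ n → (2 : ℝ) ^ (19 / 20 * (n : ℝ)) ≤ Fintype.card V → ∀ h : ℕ, 80 * h ≤ n →
        ∀ H : Fin h → Fin h → Prop, IsTour H → ∃ g : Fin h → V, ∀ i j, H i j → R (g i) (g j)) :=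
  ⟨fun _ _ hR _ _ hX hY => two_set_main hR hX hY, fun _ _ _ _ hR hn =>
    ⟨fun _ he0 he hn0 hV _ _ hd hX hY => quasirandom hR hn he0 he hn0 hV hd hX hY,
     fun _ hd _ _ hY h => exc_both hR hn hY hd h,
     fun hn0 hV h hh H hH => universal hR hn hn0 hV h hh H hH⟩⟩

end Pool.Agent.Results.MP_40b2ba_co.BiasGain
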