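import Pool.Agent.Work.MP_40b2ba_co.Main

set_option autoImplicit false

/-!
# The doubling bound for transitive subtournaments can be improved by a square root

`IsTour R`: `R` is a tournament. `f n`: the least `m` such that every tournament of order `m` contains a
transitive subtournament with `n` vertices.

The proof shows that every tournament with `N` vertices, `N` large, has a transitive list of four vertices
and a slot of it (the vertices which extend the list at a fixed place) with at least `N / 16 + c √N` members
(`big_slot` in `Work/MP_40b2ba_co/Main.lean`).
-/

namespace Pool.Agent.Results.MP_40b2ba_co.SquareRootGain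

open Pool.Agent.Work.MP_40b2ba_co

theorem result : ∃ c : ℝ, 0 < c ∧ ∃ n₀ : ℕ, ∀ n ≥ n₀, ∀ k ≥ 4,
    (f (n + k) : ℝ) ≤ 2 ^ k * (f n - c * √(f n)) :=
  main_f

end Pool.Agent.Results.MP_40b2ba_co.SquareRootGain
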